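import Pool.Agent.R132.KC.Main
import Pool.Agent.R132.KC.A
import Pool.Agent.R132.KC.C
import Pool.Agent.R132.KC.D

set_option autoImplicit false

/-!
# The extremal covers for Kneser colorings need not be equidistant

For every `c ≥ 100` put `k = 3c`, `ℓ = 2c - 4`, `r = ℓ + 1`.  For all large `n` every `r`-uniform
hypergraph on `[n]` with the maximum number of `(k,ℓ)`-Kneser colorings is `(C,r)`-complete for a
set `C` of `c = c(k)` `ℓ`-sets with pairwise intersections at most `2ℓ - r - 1 = ℓ - 2`, and never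
are all these intersections equal to `2ℓ - r - 1`.  So the answer to Q1 is negative.

Idea.  Colorings in which every colour class lies in one star are equally many for all admissible
covers.  A colour class meeting two stars is an `ℓ`-intersecting family of `(ℓ+1)`-sets, hence lies
in an `(ℓ+2)`-set or in the star of another `ℓ`-set.  The family consisting of the complements of
a perfect matching of an `(ℓ+2)`-set (`c - 1` sets) and one far `ℓ`-set has at least about
`(16/9)^(c-1)` (weighted) such classes, while an equidistant family of `c = ℓ/2 + 2` sets has at most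
`c² (12 + 4 (3/2)^c)`.
-/

open Finset

namespace Pool.Agent.Results.MP_c675bc_co.NotEquidistant

/-- `κ(H,k,ℓ)`: the number of maps `D` from the hyperedges of `H` to `[k]` such that any two
hyperedges of the same colour have at least `ℓ` common vertices. -/
noncomputable def kappa (k l : ℕ) {n : ℕ} (H : Finset (Finset (Fin n))) : ℕ :=
  Nat.card {D : {e // e ∈ H} → Fin k //
    ∀ e f : {e // e ∈ H}, D e = D f → l ≤ (e.1 ∩ f.1).card}

/-- `KC(n,r,k,ℓ)`: the maximum of `κ(H,k,ℓ)` over all `r`-uniform hypergraphs `H` on `[n]`. -/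
noncomputable def KC (n r k l : ℕ) : ℕ :=
  (powersetCard r (univ : Finset (Fin n))).powerset.sup (fun H => kappa k l H)

/-- The `(C,r)`-complete hypergraph `H_{C,r}(n)`: all `r`-subsets of `[n]` containing a member of
`C`. -/
def completeHypergraph {n : ℕ} (C : Finset (Finset (Fin n))) (r : ℕ) :
    Finset (Finset (Fin n)) :=
  (powersetCard r (univ : Finset (Fin n))).filter (fun e => ∃ t ∈ C, t ⊆ e)

theorem result : ∀ c : ℕ, 100 ≤ c → ∀ k l r : ℕ, k = 3 * c → l = 2 * c - 4 → r = l + 1 →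
    (5 ≤ k ∧ l < r ∧ r < 2 * l ∧ (k + 2) / 3 = c) ∧
    ∃ n₀ : ℕ, ∀ n : ℕ, n₀ < n →
      -- the negated form: some extremal complete hypergraph has a cover that is not equidistant
      (∃ C : Finset (Finset (Fin n)), (∀ t ∈ C, t.card = l) ∧
        kappa k l (completeHypergraph C r) = KC n r k l ∧
        ∃ t ∈ C, ∃ t' ∈ C, t ≠ t' ∧ (t ∩ t').card ≠ 2 * l - r - 1) ∧
      -- no equidistant cover with `c(k)` members is extremal
      (∀ C : Finset (Finset (Fin n)), (∀ t ∈ C, t.card = l) → C.card = c →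
        (∀ t ∈ C, ∀ t' ∈ C, t ≠ t' → (t ∩ t').card = 2 * l - r - 1) →
        kappa k l (completeHypergraph C r) < KC n r k l) ∧
      -- the shape of all extremal hypergraphs
      (∀ H : Finset (Finset (Fin n)), (∀ e ∈ H, e.card = r) → kappa k l H = KC n r k l →
        ∃ C : Finset (Finset (Fin n)), (∀ t ∈ C, t.card = l) ∧ C.card = c ∧
          H = completeHypergraph C r ∧
          (∀ t ∈ C, ∀ t' ∈ C, t ≠ t' → (t ∩ t').card ≤ 2 * l - r - 1) ∧
          ∃ t ∈ C, ∃ t' ∈ C, t ≠ t' ∧ (t ∩ t').card < 2 * l - r - 1) := by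
  intro c hc k l r hk hl hr
  obtain ⟨q, rfl⟩ : ∃ q, c = q + 1 := ⟨c - 1, by omega⟩
  obtain ⟨n0, hn0⟩ := R132.KC.main_thm R132.KC.stA R132.KC.stC R132.KC.stD q (by omega)
  refine ⟨⟨by omega, by omega, by omega, by omega⟩, n0, ?_⟩
  intro n hn
  subst hr hl hk
  obtain ⟨h1, h2⟩ := hn0 n (le_of_lt hn)
  have hd : 2 * (2 * (q + 1) - 4) - (2 * (q + 1) - 4 + 1) - 1 = 2 * (q + 1) - 6 := by omega
  rw [hd]
  have h3 : ∀ H : Finset (Finset (Fin n)), (∀ e ∈ H, e.card = 2 * (q + 1) - 4 + 1) →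
      kappa (3 * (q + 1)) (2 * (q + 1) - 4) H =
        KC n (2 * (q + 1) - 4 + 1) (3 * (q + 1)) (2 * (q + 1) - 4) →
      ∃ C : Finset (Finset (Fin n)), (∀ t ∈ C, t.card = 2 * (q + 1) - 4) ∧ C.card = q + 1 ∧
        H = completeHypergraph C (2 * (q + 1) - 4 + 1) ∧
        (∀ t ∈ C, ∀ t' ∈ C, t ≠ t' → (t ∩ t').card ≤ 2 * (q + 1) - 6) ∧
        ∃ t ∈ C, ∃ t' ∈ C, t ≠ t' ∧ (t ∩ t').card < 2 * (q + 1) - 6 := by
    intro H hH hmax
    obtain ⟨C, hC1, hC2, hC3, hC4⟩ := h1 H hH hmax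
    refine ⟨C, hC2, hC1, hC4, hC3, ?_⟩
    by_contra hcon
    push Not at hcon
    have hmax' : kappa (3 * (q + 1)) (2 * (q + 1) - 4) (completeHypergraph C (2 * (q + 1) - 4 + 1)) =
        KC n (2 * (q + 1) - 4 + 1) (3 * (q + 1)) (2 * (q + 1) - 4) := by
      rw [← hmax, hC4]; rfl
    exact h2 C hC1 hC2 hmax' (fun t ht t' ht' hne =>
      le_antisymm (hC3 t ht t' ht' hne) (hcon t ht t' ht' hne))
  refine ⟨?_, ?_, h3⟩
  · obtain ⟨H, hH, hmax⟩ := R132.KC.KCmax_attained n (2 * (q + 1) - 4 + 1) (3 * (q + 1))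
      (2 * (q + 1) - 4)
    obtain ⟨C, hC1, _, hC3, _, t, ht, t', ht', hne, hlt⟩ := h3 H hH hmax
    refine ⟨C, hC1, ?_, t, ht, t', ht', hne, by omega⟩
    rw [← hC3]
    exact hmax
  · intro C hC1 hC2 hC3
    have hle : kappa (3 * (q + 1)) (2 * (q + 1) - 4) (completeHypergraph C (2 * (q + 1) - 4 + 1)) ≤
        KC n (2 * (q + 1) - 4 + 1) (3 * (q + 1)) (2 * (q + 1) - 4) :=
      R132.KC.le_KCmax _ (R132.KC.Hc_card C _)
    exact lt_of_le_of_ne hle (fun h => h2 C hC2 hC1 h hC3)

end Pool.Agent.Results.MP_c675bc_co.NotEquidistant
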